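import Pool.Agent.X240.WF.OuMv

set_option autoImplicit false

/-! # OMv over `ZMod 2`: multiplication by words of length `c`, integral formulas -/

namespace Pool.Agent.X240.WF.Xor

open Finset
open Pool.Agent.Y638.RF.Xor (Item product code cut sum_cut sum_eq_card)
open Pool.Agent.Y638.WF

variable {n c : ℕ}

/-- the `a`-th part of the `j`-th row -/
noncomputable def part (n c : ℕ) (i j : Fin n) (a : ℕ) :
    Word (Option (Fin n)) (Item n) 2 (2 ^ (c + 1)) where
  item := ![some i, none]
  view := fun k => match k with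
    | ⟨0, _⟩ => fun (v : (Fin n → ZMod 2) × (Fin n → ZMod 2)) => code c (v.1 j, cut c v.2 a)
    | ⟨1, _⟩ => fun (M : Fin n → Fin n → ZMod 2) => code c (1, cut c (M j) a)
  out := fun e => if ((code c).symm (e 0)).1 *
    ∑ l, ((code c).symm (e 1)).2 l * ((code c).symm (e 0)).2 l = 1 then 1 else 0

theorem part_eval (i j : Fin n) (a : ℕ) (x : ∀ i, Item n i) :
    (Fml.word (part n c i j a)).eval x = if (x (some i)).1 j *
      ∑ l, cut c (x none j) a l * cut c (x (some i)).2 a l = 1 then 1 else 0 := by
  have e0 : ∀ v : ZMod 2 × (Fin c → ZMod 2), (code c).symm (code c v) = v :=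
    fun v => (code c).symm_apply_apply v
  have e1 : (Fml.word (part n c i j a)).eval x = if ((code c).symm (code c ((x (some i)).1 j,
      cut c (x (some i)).2 a))).1 *
    ∑ l, ((code c).symm (code c (1, cut c (x none j) a))).2 l *
      ((code c).symm (code c ((x (some i)).1 j, cut c (x (some i)).2 a))).2 l = 1 then 1 else 0 :=
    rfl
  rw [e1, e0, e0]

theorem upper (V : ℕ) (hV : 1 ≤ V) (hc : 1 ≤ c) :
    ∃ F : Fml (Option (Fin n)) (Item n) 2 (2 ^ (c + 1)),
      F.size = 2 * n ^ 2 * (n / c + 1) ∧ F.Small V (fun _ => True) ∧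
        ∀ x, F.accepts x = product n x := by
  classical
  obtain ⟨e, -⟩ : ∃ e : Fin (n * (n / c + 1)) ≃ Fin n × Fin (n / c + 1), True :=
    ⟨finProdFinEquiv.symm, trivial⟩
  have hbd : ∀ (p : Prop) [Decidable p], |(if p then (1 : ℤ) else 0)| ≤ V := by
    intro p _
    split_ifs <;> simp <;> omega
  obtain ⟨F, h1, hS, h2⟩ := exists_max (w := 2) (q := 2 ^ (c + 1)) V (fun _ => True) univ
    (fun i : Fin n => Fml.sym (n * (n / c + 1)) (fun k => if k % 2 = 1 then 1 else 0)
      (fun p => Fml.word (part n c i (e p).1 (e p).2)))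
    (fun i => ⟨fun p x _ => by rw [part_eval]; exact hbd _, fun x _ => hbd _⟩)
  have h6 : ∀ (x : ∀ i, Item n i) (i : Fin n),
      0 < (Fml.sym (n * (n / c + 1)) (fun k => if k % 2 = 1 then (1 : ℤ) else 0)
        (fun p => Fml.word (part n c i (e p).1 (e p).2))).eval x ↔
      ∑ j : Fin n, ∑ k : Fin n, (x (some i)).1 j * (x none) j k * (x (some i)).2 k = 1 := by
    intro x i
    have h3 : ∑ j : Fin n, ∑ k : Fin n, (x (some i)).1 j * (x none) j k * (x (some i)).2 k =
        ∑ p : Fin (n * (n / c + 1)), (x (some i)).1 (e p).1 *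
          ∑ l, cut c (x none (e p).1) (e p).2 l * cut c (x (some i)).2 (e p).2 l := by
      rw [Equiv.sum_comp e (fun p : Fin n × Fin (n / c + 1) => (x (some i)).1 p.1 *
          ∑ l, cut c (x none p.1) p.2 l * cut c (x (some i)).2 p.2 l), Fintype.sum_prod_type]
      refine sum_congr rfl fun j _ => ?_
      simp only
      rw [← mul_sum, sum_cut hc, mul_sum]
      exact sum_congr rfl fun k _ => mul_assoc _ _ _
    rw [h3, sum_eq_card]
    have h4 : (Fml.sym (n * (n / c + 1)) (fun k => if k % 2 = 1 then (1 : ℤ) else 0)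
        (fun p => Fml.word (part n c i (e p).1 (e p).2))).eval x =
        if (univ.filter (fun p : Fin (n * (n / c + 1)) => (x (some i)).1 (e p).1 *
          ∑ l, cut c (x none (e p).1) (e p).2 l *
            cut c (x (some i)).2 (e p).2 l = 1)).card % 2 = 1 then 1 else 0 := by
      unfold Fml.eval
      congr 3
      funext p
      simp only
      rw [part_eval]
      split_ifs with h
      · simp [h]
      · simp [h]
    rw [h4]
    obtain ⟨N, hN⟩ : ∃ N, N = (univ.filter (fun p : Fin (n * (n / c + 1)) =>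
      (x (some i)).1 (e p).1 * ∑ l, cut c (x none (e p).1) (e p).2 l *
        cut c (x (some i)).2 (e p).2 l = 1)).card := ⟨_, rfl⟩
    rw [← hN]
    have h5 : (N : ZMod 2) = 1 ↔ N % 2 = 1 := by
      have := ZMod.natCast_eq_natCast_iff' N 1 2
      simpa using this
    rw [h5]
    split_ifs with h <;> simp [h]
  refine ⟨F, ?_, hS, fun x => ?_⟩
  · rw [h1]
    simp only [Fml.size, sum_const, card_univ, Fintype.card_fin, smul_eq_mul]
    ring
  · unfold Fml.accepts product
    rw [Bool.eq_iff_iff, decide_eq_true_iff, decide_eq_true_iff, h2]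
    simp only [h6, mem_univ, true_and]

end Pool.Agent.X240.WF.Xor
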