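import Pool.Agent.Y638.WF.Lower
import Pool.Agent.Y638.WF.Max
import Pool.Agent.Y638.RF.Xor

set_option autoImplicit false

/-! # OMv over the Boolean semiring and over `ZMod 2`, and integral formulas -/

namespace Pool.Agent.X240.WF

open Finset Pool.Agent.TH697.Row
open Pool.Agent.TH697.Form (IsProb)
open Pool.Agent.Y638.WF

/-- queries without promise -/
theorem asks_of_real {ι : Type} {D : ι → Type} [DecidableEq ι] {T : Type} [Fintype T] {K : ℕ}
    {δ : ℝ} {f : (∀ i, D i) → Bool} {i : ι}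
    (h : Pool.Agent.Y638.RF.Asks T K δ (fun _ => True) f i) :
    Asks T δ (fun _ => True) f i := by
  obtain ⟨A, r, Q, R, -, h2, h3, -, h5⟩ := h
  exact ⟨Set.univ, r, Q, R, fun _ _ => trivial, h3, fun _ _ _ => trivial, h5⟩

/-- the arithmetic -/
theorem arith_omv {n c w v l L g s : ℝ} (hl0 : 5 ≤ l) (hl : 4 * l ≤ n ^ 2 / 24) (hn : 0 ≤ n)
    (hc : 0 ≤ c) (hw : 1 ≤ w) (hv : 0 ≤ v) (hL : L ≤ v + 2) (hg : g ≤ 4 * l) (hs : 0 ≤ s)
    (h : n * ((49 / 600 - 0) * n ^ 2 - g) ≤ w * (1 + 12 * L + 4 * g + 2 * (w - 1) * c) * s) :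
    n ^ 3 ≤ 600 * w * (v + c * w + l) * s := by
  have h1 : n ^ 2 / 25 ≤ (49 / 600 - 0) * n ^ 2 - g := by linarith
  have h2 : n * (n ^ 2 / 25) ≤ n * ((49 / 600 - 0) * n ^ 2 - g) := mul_le_mul_of_nonneg_left h1 hn
  have hcw : 0 ≤ c * w := mul_nonneg hc (by linarith)
  have h3 : w * (1 + 12 * L + 4 * g + 2 * (w - 1) * c) ≤ w * (21 * (v + c * w + l)) := by
    apply mul_le_mul_of_nonneg_left _ (by linarith)
    have : 2 * (w - 1) * c = 2 * (c * w) - 2 * c := by ring
    rw [this]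
    linarith
  have h4 := mul_le_mul_of_nonneg_right h3 hs
  have e1 : n * (n ^ 2 / 25) = n ^ 3 / 25 := by ring
  have e2 : w * (21 * (v + c * w + l)) * s = 21 * (w * (v + c * w + l) * s) := by ring
  have e3 : 600 * w * (v + c * w + l) * s = 600 * (w * (v + c * w + l) * s) := by ring
  have h5 : 0 ≤ w * (v + c * w + l) * s := by positivity
  rw [e1] at h2
  rw [e2] at h4
  rw [e3]
  linarith

/-- The bound for all problems of this type. -/
theorem omv_bound {n c w v : ℕ} {D : Option (Fin n) → Type} (hn : 32 ≤ n) (hw : 1 ≤ w)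
    (f : (∀ i, D i) → Bool)
    (hf : ∀ i : Fin n, Pool.Agent.Y638.RF.Asks (Fin n × Fin n) (n ^ 2) 0 (fun _ => True) f (some i))
    {Ω : Type} [Fintype Ω] (μ : Ω → ℝ) (hμ : IsProb μ) (s : ℕ)
    (B : Ω → Program (Option (Fin n)) D w (2 ^ c) (2 ^ v) (fun _ => True) s)
    (hB : ApproximatesOn μ (fun ω => (B ω).eval) (fun _ => True) f) :
    (n : ℝ) ^ 3 ≤ 600 * w * (v + c * w + Real.logb 2 n) * s := by
  classical
  have hw' : (1 : ℝ) ≤ w := by exact_mod_cast hw
  have hc' : (0 : ℝ) ≤ c := Nat.cast_nonneg c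
  have hv' : (0 : ℝ) ≤ v := Nat.cast_nonneg v
  have hs0 : (0 : ℝ) ≤ s := Nat.cast_nonneg s
  have hn' : (32 : ℝ) ≤ n := by exact_mod_cast hn
  obtain ⟨hl1, -⟩ := Pool.Agent.TH457.Ary.OuMv.logb_n hn
  have hl5 : 5 ≤ Real.logb 2 (n : ℝ) := by
    have h1 := Real.logb_le_logb_of_le (by norm_num : (1 : ℝ) < 2) (by norm_num) hn'
    have h2 : Real.logb 2 (32 : ℝ) = 5 := by
      rw [show (32 : ℝ) = 2 ^ (5 : ℕ) by norm_num, Real.logb_pow, Real.logb_self_eq_one (by norm_num)]
      norm_num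
    linarith
  have hn0 : (0 : ℝ) < n := by linarith
  by_cases hsn : n ^ 3 ≤ s
  · have h1 : (n : ℝ) ^ 3 ≤ s := by exact_mod_cast hsn
    have h0 : (0 : ℝ) ≤ c * w := by positivity
    have h2 : (1 : ℝ) ≤ w * (v + c * w + Real.logb 2 n) :=
      one_le_mul_of_one_le_of_one_le hw' (by linarith)
    nlinarith
  have h := program_lower μ hμ (2 ^ v) s (fun _ => True) B f hB Nat.one_le_two_pow
    Nat.one_le_two_pow hw 0 ((univ : Finset (Fin n)).map Function.Embedding.some)
    (T := Fin n × Fin n) (by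
      intro a ha
      rw [mem_map] at ha
      obtain ⟨i, -, rfl⟩ := ha
      exact asks_of_real (hf i))
  rw [card_map, card_univ, Fintype.card_fin, Fintype.card_prod, Fintype.card_fin] at h
  have e1 : Real.logb 2 ((2 ^ c : ℕ) : ℝ) = c := by
    push_cast
    rw [Real.logb_pow, Real.logb_self_eq_one (by norm_num), mul_one]
  rw [e1] at h
  refine arith_omv (L := Real.logb 2 (2 * ((2 ^ v : ℕ) : ℝ) + 1)) (g := Real.logb 2 (s + 2)) hl5
    hl1 hn0.le hc' hw' hv' ?_ ?_ hs0 ?_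
  · have h1 : (1 : ℝ) ≤ (2 : ℝ) ^ v := one_le_pow₀ (by norm_num)
    have h2 : (2 * ((2 ^ v : ℕ) : ℝ) + 1) ≤ (2 : ℝ) ^ (v + 2) := by
      push_cast
      rw [pow_add]
      linarith
    have h3 := Real.logb_le_logb_of_le (by norm_num : (1 : ℝ) < 2) (by positivity) h2
    rw [Real.logb_pow, Real.logb_self_eq_one (by norm_num)] at h3
    push_cast at h3 ⊢
    linarith
  · have h1 : ((s : ℝ) + 2) ≤ (n : ℝ) ^ 4 := by
      have h2 : s + 2 ≤ n ^ 4 := by
        have h3 : n ^ 3 + 2 ≤ n ^ 4 := by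
          have h4 : 32 * n ^ 3 ≤ n ^ 4 := by
            calc 32 * n ^ 3 ≤ n * n ^ 3 := Nat.mul_le_mul_right _ hn
              _ = n ^ 4 := by ring
          have h5 : 1 ≤ n ^ 3 := Nat.one_le_pow _ _ (by omega)
          omega
        omega
      exact_mod_cast h2
    have h3 := Real.logb_le_logb_of_le (by norm_num : (1 : ℝ) < 2) (by positivity) h1
    rw [Real.logb_pow] at h3
    push_cast at h3
    exact h3
  · have e2 : (((n * n : ℕ)) : ℝ) = (n : ℝ) ^ 2 := by push_cast; ring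
    rw [e2] at h
    exact h

/-- multiplication by words of length `c`, Boolean semiring -/
theorem upper_ouMv {n c : ℕ} (V : ℕ) (hV : 1 ≤ V) (hc : 1 ≤ c) :
    ∃ F : Fml (Option (Fin n)) (Pool.Agent.TH697.Form.OuMv.Item n n) 2 (2 ^ (c + 1)),
      F.size = n ^ 2 * (n / c + 1) ∧ F.Small V (fun _ => True) ∧
        ∀ x, F.accepts x = Pool.Agent.TH697.Form.OuMv.ouMv n n x := by
  classical
  obtain ⟨F, h1, h2, h3⟩ := exists_max (w := 2) (q := 2 ^ (c + 1)) V (fun _ => True) univ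
    (fun p : Fin n × Fin n × Fin (n / c + 1) => Fml.word (D := Pool.Agent.TH697.Form.OuMv.Item n n) ⟨
      (Pool.Agent.TH457.Ary.OuMv.part n c p).item, (Pool.Agent.TH457.Ary.OuMv.part n c p).view,
      fun e => if (Pool.Agent.TH457.Ary.OuMv.part n c p).out e = true then 1 else 0⟩)
    (fun p x _ => by
      simp only [Fml.eval]
      split_ifs <;> simp <;> omega)
  have hp : ∀ (x : ∀ i, Pool.Agent.TH697.Form.OuMv.Item n n i) (p : Fin n × Fin n × Fin (n / c + 1)),
      0 < (Fml.word (D := Pool.Agent.TH697.Form.OuMv.Item n n) (q := 2 ^ (c + 1)) ⟨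
      (Pool.Agent.TH457.Ary.OuMv.part n c p).item, (Pool.Agent.TH457.Ary.OuMv.part n c p).view,
      fun e => if (Pool.Agent.TH457.Ary.OuMv.part n c p).out e = true then 1 else 0⟩).eval x ↔
        (Pool.Agent.TH457.Ary.OuMv.part n c p).eval x = true := by
    intro x p
    simp only [Fml.eval, Pool.Agent.TH457.Ary.Test.eval]
    split_ifs with h
    · simp [h]
    · simp [h]
  refine ⟨F, ?_, h2, fun x => ?_⟩
  · rw [h1]
    simp only [Fml.size, sum_const, card_univ, Fintype.card_prod, Fintype.card_fin, smul_eq_mul]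
    ring
  · unfold Fml.accepts Pool.Agent.TH697.Form.OuMv.ouMv
    rw [Bool.eq_iff_iff, decide_eq_true_iff, decide_eq_true_iff, h3]
    simp only [hp, mem_univ, true_and]
    constructor
    · rintro ⟨p, hp⟩
      obtain ⟨h1, l, h, h2, h3⟩ := (Pool.Agent.TH457.Ary.OuMv.part_eval p x).1 hp
      exact ⟨p.1, p.2.1, _, h1, h3, h2⟩
    · rintro ⟨i, j, k, h1, h2, h3⟩
      have hk : k.val / c < n / c + 1 := by
        have := Nat.div_le_div_right (c := c) k.2.le
        omega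
      have hk2 : k.val / c * c + k.val % c = k.val := by
        have := Nat.div_add_mod k.val c
        rw [mul_comm] at this
        exact this
      refine ⟨(i, j, ⟨k.val / c, hk⟩), (Pool.Agent.TH457.Ary.OuMv.part_eval _ x).2
        ⟨h1, ⟨k.val % c, Nat.mod_lt _ hc⟩, ?_, ?_⟩⟩
      · simp only
        rw [hk2]
        exact k.2
      · simp only [hk2]
        exact ⟨h3, h2⟩

end Pool.Agent.X240.WF
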