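import Pool.Agent.Y638.WF.Lower

set_option autoImplicit false

/-! # The bound for integral formulas in a simple form -/

namespace Pool.Agent.X240.WF

open Finset Pool.Agent.TH697.Row
open Pool.Agent.TH697.Form (IsProb)
open Pool.Agent.Y638.WF

theorem arith_gen {N T v c w L g γ s : ℝ} (hN : 0 ≤ N) (hγ : g ≤ γ) (hT : γ ≤ T / 24)
    (hc : 0 ≤ c) (hw : 1 ≤ w) (hL : L ≤ v + 2) (hs : 0 ≤ s)
    (h : N * ((49 / 600 - 0) * T - g) ≤ w * (1 + 12 * L + 4 * g + 2 * (w - 1) * c) * s) :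
    N * T ≤ 25 * w * (25 + 12 * v + 4 * γ + 2 * (w - 1) * c) * s := by
  have h1 : N * (T / 25) ≤ N * ((49 / 600 - 0) * T - g) :=
    mul_le_mul_of_nonneg_left (by linarith) hN
  have h2 : w * (1 + 12 * L + 4 * g + 2 * (w - 1) * c) * s ≤
      w * (25 + 12 * v + 4 * γ + 2 * (w - 1) * c) * s :=
    mul_le_mul_of_nonneg_right (mul_le_mul_of_nonneg_left (by linarith) (by linarith)) hs
  have e1 : N * (T / 25) = N * T / 25 := by ring
  have e2 : 25 * w * (25 + 12 * v + 4 * γ + 2 * (w - 1) * c) * s =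
    25 * (w * (25 + 12 * v + 4 * γ + 2 * (w - 1) * c) * s) := by ring
  rw [e1] at h1
  rw [e2]
  linarith

/-- The bound in a simple form. -/
theorem wf_gen {ι : Type} {D : ι → Type} [DecidableEq ι] {T : Type} [Fintype T] {c w v : ℕ}
    (hw : 1 ≤ w) {Ω : Type} [Fintype Ω] (μ : Ω → ℝ) (hμ : IsProb μ) (s : ℕ)
    (P : (∀ i, D i) → Prop) (B : Ω → Program ι D w (2 ^ c) (2 ^ v) P s) (f : (∀ i, D i) → Bool)
    (hB : ApproximatesOn μ (fun ω => (B ω).eval) P f) (I : Finset ι)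
    (h : ∀ i ∈ I, Asks T 0 P f i) (γ : ℝ) (hγ : Real.logb 2 ((s : ℝ) + 2) ≤ γ)
    (hT : γ ≤ Fintype.card T / 24) :
    (I.card : ℝ) * Fintype.card T ≤ 25 * w * (25 + 12 * v + 4 * γ + 2 * (w - 1) * c) * s := by
  have hw' : (1 : ℝ) ≤ w := by exact_mod_cast hw
  have hc' : (0 : ℝ) ≤ c := Nat.cast_nonneg c
  have hs0 : (0 : ℝ) ≤ s := Nat.cast_nonneg s
  have h := program_lower μ hμ (2 ^ v) s P B f hB Nat.one_le_two_pow Nat.one_le_two_pow hw 0 I h
  have e1 : Real.logb 2 ((2 ^ c : ℕ) : ℝ) = c := by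
    push_cast
    rw [Real.logb_pow, Real.logb_self_eq_one (by norm_num), mul_one]
  rw [e1] at h
  refine arith_gen (L := Real.logb 2 (2 * ((2 ^ v : ℕ) : ℝ) + 1)) (Nat.cast_nonneg _) hγ hT hc' hw'
    ?_ hs0 h
  have h1 : (1 : ℝ) ≤ (2 : ℝ) ^ v := one_le_pow₀ (by norm_num)
  have h2 : (2 * ((2 ^ v : ℕ) : ℝ) + 1) ≤ (2 : ℝ) ^ (v + 2) := by
    push_cast
    rw [pow_add]
    linarith
  have h3 := Real.logb_le_logb_of_le (by norm_num : (1 : ℝ) < 2) (by positivity) h2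
  rw [Real.logb_pow, Real.logb_self_eq_one (by norm_num)] at h3
  push_cast at h3 ⊢
  linarith

end Pool.Agent.X240.WF
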